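import Pool.Agent.H96.MC.Targets4
import Pool.Agent.H62.MC.Fmeas

/-!
# MP_5da387_pr, board `mc_modules`: modules INDL and CHA
-/

set_option autoImplicit false

namespace Pool.Agent.H85.MC

open MeasureTheory ProbabilityTheory Pool.Agent.H96.MC

noncomputable section

theorem indl (_h : T_FMEAS) : T_INDL := by
  classical
  intro d q D L ι I W S
  have hind : iIndepFun (fun (x : CC d q) (n : Cfg d q) => n x) (poisL D d L) := by
    have := iIndepFun_infinitePi (P := fun x : CC d q =>
      poissonMeasure (D.lam x.2 * L).toNNReal) (X := fun _ => id) (fun _ => measurable_id)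
    exact this
  induction I using Finset.induction_on with
  | empty =>
    intro _ _
    haveI : IsProbabilityMeasure (poisL D d L) := by unfold poisL; infer_instance
    simp
  | insert b I hb ih =>
    intro hS hW
    rw [Finset.prod_insert hb, ← ih (fun a ha => hS a (Finset.mem_insert_of_mem ha))
      (fun a ha c hc hac => hW a (Finset.mem_insert_of_mem ha) c (Finset.mem_insert_of_mem hc) hac)]
    have e : (⋂ a ∈ insert b I, S a) = S b ∩ ⋂ a ∈ I, S a := by
      simp [Set.iInter_iInter_eq_or_left]
    rw [e]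
    have hdet : DetBy (I.biUnion W) (⋂ a ∈ I, S a) := by
      intro n n' hn
      simp only [Set.mem_iInter]
      refine forall₂_congr fun a ha => ?_
      exact hS a (Finset.mem_insert_of_mem ha) n n'
        (fun x hx => hn x (Finset.mem_biUnion.2 ⟨a, ha, hx⟩))
    have hdis : Disjoint (W b) (I.biUnion W) := by
      rw [Finset.disjoint_biUnion_right]
      intro a ha
      refine hW b (Finset.mem_insert_self b I) a (Finset.mem_insert_of_mem ha) ?_
      rintro rfl
      exact hb ha
    have hi := hind.indepFun_finset (W b) (I.biUnion W) hdis (fun x => measurable_pi_apply x)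
    obtain ⟨A, hA⟩ := Pool.Agent.H62.MC.eq_preimage (W b) (S b) (hS b (Finset.mem_insert_self b I))
    obtain ⟨B, hB⟩ := Pool.Agent.H62.MC.eq_preimage (I.biUnion W) _ hdet
    rw [hA, hB]
    exact hi.measure_inter_preimage_eq_mul A B (Set.to_countable _).measurableSet
      (Set.to_countable _).measurableSet

/-- law of the counts of one cell -/
lemma cell_law {d q : ℕ} (D : Dat q) (L : ℝ) (c : Cell d) (Z : Set (Fin q → ℕ)) :
    poisL D d L {n | (fun i => n (c, i)) ∈ Z} =
      Measure.pi (fun i : Fin q => poissonMeasure (D.lam i * L).toNNReal) Z := by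
  have hind : iIndepFun (fun (x : CC d q) (n : Cfg d q) => n x) (poisL D d L) := by
    have := iIndepFun_infinitePi (P := fun x : CC d q =>
      poissonMeasure (D.lam x.2 * L).toNNReal) (X := fun _ => id) (fun _ => measurable_id)
    exact this
  have hinj : Function.Injective (fun i : Fin q => ((c, i) : CC d q)) := fun i j h => by
    simpa using h
  have h1 : iIndepFun (fun (i : Fin q) (n : Cfg d q) => n (c, i)) (poisL D d L) :=
    hind.precomp hinj
  haveI : IsProbabilityMeasure (poisL D d L) := by unfold poisL; infer_instance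
  have h2 := (iIndepFun_iff_map_fun_eq_pi_map
    (fun i => (measurable_pi_apply ((c, i) : CC d q)).aemeasurable)).1 h1
  have h3 : ∀ i : Fin q, (poisL D d L).map (fun n : Cfg d q => n (c, i)) =
      poissonMeasure (D.lam i * L).toNNReal := by
    intro i
    exact Measure.infinitePi_map_eval (fun x : CC d q => poissonMeasure (D.lam x.2 * L).toNNReal)
      (c, i)
  simp only [h3] at h2
  rw [← h2, Measure.map_apply (measurable_pi_iff.2 fun i => measurable_pi_apply _)
    (Set.to_countable _).measurableSet]
  rfl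

/-- telescoping sums over `Fin B` -/
lemma tele {M : Type} [AddCommGroup M] {B : ℕ} (t : Fin B → M) :
    ∃ δ : Fin B → M, ∀ m : Fin B, ∑ m' ∈ Finset.univ.filter (fun m' => m' ≤ m), δ m' = t m := by
  classical
  let T : ℕ → M := fun k => if h : 0 < k ∧ k - 1 < B then t ⟨k - 1, h.2⟩ else 0
  have hT : ∀ m : Fin B, T (m.val + 1) = t m := fun m => by
    have : 0 < m.val + 1 ∧ m.val + 1 - 1 < B := ⟨by omega, by have := m.2; omega⟩
    simp only [T, dif_pos this]
    rfl
  have hT0 : T 0 = 0 := by simp [T]
  refine ⟨fun m => T (m.val + 1) - T m.val, ?_⟩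
  have key : ∀ k : ℕ, k ≤ B →
      ∑ m' ∈ Finset.univ.filter (fun m' : Fin B => m'.val < k), (T (m'.val + 1) - T m'.val) = T k := by
    intro k
    induction k with
    | zero => intro _; simp [hT0]
    | succ k ih =>
      intro hk
      have e : Finset.univ.filter (fun m' : Fin B => m'.val < k + 1) =
          insert ⟨k, by omega⟩ (Finset.univ.filter (fun m' : Fin B => m'.val < k)) := by
        ext m'
        simp only [Finset.mem_filter, Finset.mem_univ, true_and, Finset.mem_insert, Fin.ext_iff]
        omega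
      rw [e, Finset.sum_insert (by simp), ih (by omega)]
      simp
  intro m
  rw [← hT m, ← key (m.val + 1) (by have := m.2; omega)]
  refine Finset.sum_congr ?_ fun _ _ => rfl
  ext m'
  simp only [Finset.mem_filter, Finset.mem_univ, true_and, Fin.le_def]
  omega

theorem cha (h1 : T_INDL) (_h2 : T_WINP) (_h3 : T_PLM) : T_CHA := by
  classical
  intro q D L cG B J W S τ hL hcG hpos hJ hJW hS hτ
  have hFM := Pool.Agent.H62.MC.fmeas
  -- the level sets of the restriction to `W`
  let lv : (W → ℕ) → Set (Cfg 1 q) := fun w => {n | ∀ x : W, n x.1 = w x}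
  have hlv : ∀ w, DetBy W (lv w) := by
    intro w n n' h
    change (∀ x : W, n x.1 = w x) ↔ (∀ x : W, n' x.1 = w x)
    exact forall_congr' fun x => by rw [h x.1 x.2]
  have hSlv : ∀ w, DetBy W (S ∩ lv w) := by
    intro w n n' h
    exact and_congr (hS n n' h) (hlv w n n' h)
  choose δ hδ using fun w : W → ℕ => tele (fun m => τ m (ext w))
  let Ev : (W → ℕ) → Fin B → Set (Cfg 1 q) := fun w m =>
    {n | toZ (fun i => n (J m, i)) - δ w m ∈ Lat D.V}
  have hEv : ∀ w m, DetBy ({J m} ×ˢ Finset.univ) (Ev w m) := by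
    intro w m n n' h
    have : (fun i => n (J m, i)) = fun i => n' (J m, i) := by
      funext i
      exact h (J m, i) (Finset.mem_product.2 ⟨Finset.mem_singleton_self _, Finset.mem_univ _⟩)
    change toZ (fun i => n (J m, i)) - δ w m ∈ Lat D.V ↔ toZ (fun i => n' (J m, i)) - δ w m ∈ Lat D.V
    rw [this]
  have hEvp : ∀ w m, ENNReal.ofReal cG ≤ poisL D 1 L (Ev w m) := by
    intro w m
    refine (hpos (δ w m)).trans (le_of_eq ?_)
    exact (cell_law D L (J m) {u | toZ u - δ w m ∈ Lat D.V}).symm
  -- one level set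
  have hone : ∀ w, ENNReal.ofReal (cG ^ B) * poisL D 1 L (S ∩ lv w) ≤
      poisL D 1 L ((S ∩ lv w) ∩ ⋂ m, Ev w m) := by
    intro w
    have h2 := h1 1 q D L (Option (Fin B)) Finset.univ
      (fun o => o.elim W (fun m => {J m} ×ˢ Finset.univ)) (fun o => o.elim (S ∩ lv w) (Ev w))
      (by
        intro o _
        rcases o with _ | m
        · exact hSlv w
        · exact hEv w m)
      (by
        intro a _ b _ hab
        rcases a with _ | a <;> rcases b with _ | b
        · exact absurd rfl hab
        · simp only [Option.elim_none, Option.elim_some]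
          rw [Finset.disjoint_left]
          rintro ⟨x1, x2⟩ hx hx'
          have h3 := Finset.mem_singleton.1 (Finset.mem_product.1 hx').1
          simp only at h3
          subst h3
          exact hJW b x2 hx
        · simp only [Option.elim_none, Option.elim_some]
          rw [Finset.disjoint_left]
          rintro ⟨x1, x2⟩ hx' hx
          have h3 := Finset.mem_singleton.1 (Finset.mem_product.1 hx').1
          simp only at h3
          subst h3
          exact hJW a x2 hx
        · simp only [Option.elim_some]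
          rw [Finset.disjoint_left]
          rintro ⟨x1, x2⟩ hx hx'
          have h3 := Finset.mem_singleton.1 (Finset.mem_product.1 hx).1
          have h4 := Finset.mem_singleton.1 (Finset.mem_product.1 hx').1
          exact hab (congrArg some (hJ (h3.symm.trans h4))))
    have h3 : (⋂ a ∈ (Finset.univ : Finset (Option (Fin B))),
        (fun o : Option (Fin B) => o.elim (S ∩ lv w) (Ev w)) a) = (S ∩ lv w) ∩ ⋂ m, Ev w m := by
      ext n
      simp only [Finset.mem_univ, Set.iInter_true, Set.mem_iInter, Set.mem_inter_iff]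
      constructor
      · intro h
        exact ⟨h none, fun m => h (some m)⟩
      · rintro ⟨h, h'⟩ (_ | m)
        · exact h
        · exact h' m
    rw [h3, Fintype.prod_option] at h2
    rw [h2, mul_comm]
    simp only [Option.elim_none, Option.elim_some]
    gcongr
    calc ENNReal.ofReal (cG ^ B) = ∏ _m : Fin B, ENNReal.ofReal cG := by
          rw [Finset.prod_const, Finset.card_univ, Fintype.card_fin, ENNReal.ofReal_pow hcG]
      _ ≤ ∏ m, poisL D 1 L (Ev w m) := Finset.prod_le_prod' fun m _ => hEvp w m
  -- decomposition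
  have hmem : ∀ n : Cfg 1 q, n ∈ lv (fun x => n x.1) := fun n x => rfl
  have hdisj : ∀ w w' : W → ℕ, w ≠ w' → ∀ A A' : Set (Cfg 1 q), Disjoint (A ∩ lv w) (A' ∩ lv w') := by
    intro w w' hww A A'
    rw [Set.disjoint_left]
    rintro n ⟨-, hn⟩ ⟨-, hn'⟩
    apply hww
    funext x
    rw [← hn x, ← hn' x]
  have hSeq : S = ⋃ w : W → ℕ, S ∩ lv w := by
    ext n
    simp only [Set.mem_iUnion, Set.mem_inter_iff]
    exact ⟨fun h => ⟨_, h, hmem n⟩, fun ⟨_, h, _⟩ => h⟩
  have hmS : ∀ w, MeasurableSet (S ∩ lv w) := fun w => hFM 1 q W _ (hSlv w)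
  have hmE : ∀ w, MeasurableSet ((S ∩ lv w) ∩ ⋂ m, Ev w m) := fun w =>
    (hmS w).inter (MeasurableSet.iInter fun m => hFM 1 q _ _ (hEv w m))
  have e1 : poisL D 1 L S = ∑' w : W → ℕ, poisL D 1 L (S ∩ lv w) := by
    conv_lhs => rw [hSeq]
    exact measure_iUnion (fun w w' h => hdisj w w' h _ _) hmS
  have e2 : ∑' w : W → ℕ, poisL D 1 L ((S ∩ lv w) ∩ ⋂ m, Ev w m) =
      poisL D 1 L (⋃ w : W → ℕ, (S ∩ lv w) ∩ ⋂ m, Ev w m) := by
    refine (measure_iUnion (fun w w' h => ?_) hmE).symm
    exact (hdisj w w' h S S).mono Set.inter_subset_left Set.inter_subset_left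
  calc ENNReal.ofReal (cG ^ B) * poisL D 1 L S
      = ∑' w : W → ℕ, ENNReal.ofReal (cG ^ B) * poisL D 1 L (S ∩ lv w) := by
        rw [e1, ENNReal.tsum_mul_left]
    _ ≤ ∑' w : W → ℕ, poisL D 1 L ((S ∩ lv w) ∩ ⋂ m, Ev w m) := ENNReal.tsum_le_tsum hone
    _ = poisL D 1 L (⋃ w : W → ℕ, (S ∩ lv w) ∩ ⋂ m, Ev w m) := e2
    _ ≤ _ := by
        refine measure_mono ?_
        intro n hn
        obtain ⟨w, ⟨hnS, hnw⟩, hnE⟩ := Set.mem_iUnion.1 hn
        refine ⟨hnS, fun m => ?_⟩
        have e3 : τ m n = τ m (ext w) := by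
          refine hτ m n (ext w) fun x hx => ?_
          have := hnw ⟨x, hx⟩
          rw [this]
          simp [ext, hx]
        rw [e3, ← hδ w m, ← Finset.sum_sub_distrib]
        exact AddSubgroup.sum_mem _ fun m' _ => Set.mem_iInter.1 hnE m'

end

end Pool.Agent.H85.MC
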