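import Pool.Agent.H96.MC.Targets4

/-!
MP_5da387_pr, module NU: the mean number of far points of a scheme is proportional to the volume.
-/

namespace Pool.Agent.H85.MC.NU

open MeasureTheory ProbabilityTheory Pool.Agent.H96.MC

noncomputable section

variable {d q : ℕ}

/-! ### FDM: measurable sets of families -/

theorem meas_count (B : Set (Sp d)) (hB : MeasurableSet B) (s : Set ℕ∞) :
    MeasurableSet[famSigma d] {F : Finset (Sp d) | ((F : Set (Sp d)) ∩ B).encard ∈ s} := by
  have h : MeasurableSpace.comap (fun F : Finset (Sp d) => ((F : Set (Sp d)) ∩ B).encard) ⊤ ≤ famSigma d := by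
    unfold famSigma
    exact le_iSup (fun A : {A : Set (Sp d) // MeasurableSet A} =>
      MeasurableSpace.comap (fun F : Finset (Sp d) => ((F : Set (Sp d)) ∩ A.1).encard) ⊤) ⟨B, hB⟩
  exact h _ ⟨s, trivial, rfl⟩

theorem meas_hit (B : Set (Sp d)) (hB : MeasurableSet B) :
    MeasurableSet[famSigma d] {F : Finset (Sp d) | ((F : Set (Sp d)) ∩ B).Nonempty} := by
  have := meas_count B hB {0}ᶜ
  simpa [Set.nonempty_iff_ne_empty] using this

theorem meas_diam (r : ℝ) : MeasurableSet[famSigma d] {F : Finset (Sp d) | r < fdiam F} := by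
  rcases lt_or_ge r 0 with hr | hr
  · have : {F : Finset (Sp d) | r < fdiam F} = Set.univ := by
      ext F; simp only [Set.mem_ofPred_eq, Set.mem_univ, iff_true]
      exact lt_of_lt_of_le hr Metric.diam_nonneg
    rw [this]; exact @MeasurableSet.univ _ (famSigma d)
  · set b := TopologicalSpace.countableBasis (Sp d) with hb
    have hbc : b.Countable := TopologicalSpace.countable_countableBasis _
    have hbb : TopologicalSpace.IsTopologicalBasis b := TopologicalSpace.isBasis_countableBasis _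
    have key : {F : Finset (Sp d) | r < fdiam F} =
        ⋃ U ∈ b, ⋃ U' ∈ b, ⋃ (_ : ∀ y ∈ U, ∀ y' ∈ U', r < dist y y'),
          ({F : Finset (Sp d) | ((F : Set (Sp d)) ∩ U).Nonempty} ∩
            {F : Finset (Sp d) | ((F : Set (Sp d)) ∩ U').Nonempty}) := by
      ext F
      simp only [Set.mem_ofPred_eq, Set.mem_iUnion, Set.mem_inter_iff, exists_prop]
      constructor
      · intro h
        obtain ⟨x, hx, y, hy, hxy⟩ : ∃ x ∈ F, ∃ y ∈ F, r < dist x y := by
          by_contra hcon
          push Not at hcon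
          have : fdiam F ≤ r := Metric.diam_le_of_forall_dist_le hr
            (fun x hx y hy => hcon x (by exact_mod_cast hx) y (by exact_mod_cast hy))
          linarith
        set ε := (dist x y - r) / 2 with hε
        have hεp : 0 < ε := by rw [hε]; linarith
        obtain ⟨U, hU, hxU, hUs⟩ := hbb.exists_subset_of_mem_open (Metric.mem_ball_self (x := x) hεp)
          Metric.isOpen_ball
        obtain ⟨U', hU', hyU, hUs'⟩ := hbb.exists_subset_of_mem_open (Metric.mem_ball_self (x := y) hεp)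
          Metric.isOpen_ball
        refine ⟨U, hU, U', hU', ?_, ⟨x, by exact_mod_cast hx, hxU⟩, ⟨y, by exact_mod_cast hy, hyU⟩⟩
        intro z hz z' hz'
        have h1 : dist z x < ε := hUs hz
        have h2 : dist z' y < ε := hUs' hz'
        have h3 : dist x y ≤ dist x z + dist z z' + dist z' y := dist_triangle4 _ _ _ _
        rw [dist_comm x z] at h3
        linarith
      · rintro ⟨U, hU, U', hU', hd, ⟨x, hx, hxU⟩, ⟨y, hy, hyU⟩⟩
        have := hd x hxU y hyU
        refine lt_of_lt_of_le this (Metric.dist_le_diam_of_mem (Set.Finite.isBounded F.finite_toSet) hx hy)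
    rw [key]
    refine @MeasurableSet.biUnion _ _ (famSigma d) _ _ hbc (fun U hU => ?_)
    refine @MeasurableSet.biUnion _ _ (famSigma d) _ _ hbc (fun U' hU' => ?_)
    refine @MeasurableSet.iUnion _ _ (famSigma d) _ _ (fun _ => ?_)
    exact @MeasurableSet.inter _ (famSigma d) _ _ (meas_hit U (hbb.isOpen hU).measurableSet)
      (meas_hit U' (hbb.isOpen hU').measurableSet)

/-! ### encard as a sum -/

theorem encard_eq_tsum {α : Type*} (s : Set α) :
    (s.encard : ENNReal) = ∑' x : α, s.indicator (fun _ => (1 : ENNReal)) x := by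
  rw [← ENNReal.tsum_set_one s, tsum_subtype s (fun _ => (1 : ENNReal))]

theorem encard_iUnion {α ι : Type*} (s : ι → Set α) (hs : Pairwise (Function.onFun Disjoint s)) :
    ((⋃ i, s i).encard : ENNReal) = ∑' i, ((s i).encard : ENNReal) := by
  simp only [encard_eq_tsum]
  rw [ENNReal.tsum_comm]
  refine tsum_congr fun x => ?_
  by_cases hx : x ∈ ⋃ i, s i
  · rw [Set.indicator_of_mem hx]
    obtain ⟨i, hi⟩ := Set.mem_iUnion.mp hx
    rw [tsum_eq_single i]
    · rw [Set.indicator_of_mem hi]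
    · intro j hj
      rw [Set.indicator_of_notMem]
      intro hxj
      exact Set.disjoint_left.mp (hs hj) hxj hi
  · rw [Set.indicator_of_notMem hx]
    symm
    rw [ENNReal.tsum_eq_zero]
    intro i
    rw [Set.indicator_of_notMem]
    intro hi
    exact hx (Set.mem_iUnion.mpr ⟨i, hi⟩)

theorem encard_biUnion {α ι : Type*} (T : Set ι) (s : ι → Set α)
    (hs : ∀ i ∈ T, ∀ j ∈ T, ∀ x, x ∈ s i → x ∈ s j → i = j) :
    ((⋃ i ∈ T, s i).encard : ENNReal) = ∑' i, T.indicator (fun i => ((s i).encard : ENNReal)) i := by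
  rw [← tsum_subtype T (fun i => ((s i).encard : ENNReal)), Set.biUnion_eq_iUnion]
  rw [encard_iUnion]
  intro i j hij
  refine Set.disjoint_left.mpr fun x hx hx' => hij ?_
  exact Subtype.ext (hs i.1 i.2 j.1 j.2 x hx hx')

/-- the points of `B` whose family is in `A` -/
def farA {V : Finset (Fin q → ℕ)} {lam : Fin q → ℝ} (S : Scheme V lam d) (A : Set (Finset (Sp d)))
    (B : Set (Sp d)) (ω : S.Ω) : Set (Sp d) :=
  {x | x ∈ B ∧ (∃ i, x ∈ S.Pi i ω) ∧ ∃ G ∈ S.M ω, x ∈ G ∧ G ∈ A}

/-- the expected number -/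
def nuA {V : Finset (Fin q → ℕ)} {lam : Fin q → ℝ} (S : Scheme V lam d) (A : Set (Finset (Sp d)))
    (B : Set (Sp d)) : ENNReal := ∫⁻ ω, ((farA S A B ω).encard : ENNReal) ∂S.P

theorem toENNReal_measurable : Measurable (fun n : ℕ∞ => (n : ENNReal)) := by
  exact Measurable.of_discrete

theorem farA_formula {V : Finset (Fin q → ℕ)} {lam : Fin q → ℝ} (S : Scheme V lam d)
    (A : Set (Finset (Sp d))) (B : Set (Sp d)) :
    ∀ᵐ ω ∂S.P, ((farA S A B ω).encard : ENNReal) = ∑' k : ℕ, (k : ENNReal) *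
      ((S.M ω ∩ (A ∩ {F | ((F : Set (Sp d)) ∩ B).encard = k})).encard : ENNReal) := by
  filter_upwards [S.fam, S.part] with ω hfam hpart
  have h1 : farA S A B ω = ⋃ G ∈ S.M ω ∩ A, ((G : Set (Sp d)) ∩ B) := by
    ext x
    simp only [farA, Set.mem_ofPred_eq, Set.mem_iUnion, Set.mem_inter_iff, exists_prop,
      Finset.mem_coe]
    constructor
    · rintro ⟨hB, hi, G, hG, hx, hA⟩
      exact ⟨G, ⟨hG, hA⟩, hx, hB⟩
    · rintro ⟨G, ⟨hG, hA⟩, hx, hB⟩
      exact ⟨hB, (hfam G hG).2.2 x hx, G, hG, hx, hA⟩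
  rw [h1, encard_biUnion]
  · have h2 : ∀ G : Finset (Sp d), (S.M ω ∩ A).indicator
        (fun G : Finset (Sp d) => (((G : Set (Sp d)) ∩ B).encard : ENNReal)) G =
        ∑' k : ℕ, (k : ENNReal) * (S.M ω ∩ (A ∩ {F | ((F : Set (Sp d)) ∩ B).encard = k})).indicator
          (fun _ => (1 : ENNReal)) G := by
      intro G
      by_cases hG : G ∈ S.M ω ∩ A
      · rw [Set.indicator_of_mem hG]
        have hfin : ((G : Set (Sp d)) ∩ B).Finite := G.finite_toSet.inter_of_left B
        set k := hfin.toFinset.card with hk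
        have hcard : ((G : Set (Sp d)) ∩ B).encard = k := by
          rw [hfin.encard_eq_coe_toFinset_card]
        rw [tsum_eq_single k]
        · rw [Set.indicator_of_mem, hcard, mul_one]
          · simp
          · exact ⟨hG.1, hG.2, hcard⟩
        · intro j hj
          rw [Set.indicator_of_notMem, mul_zero]
          rintro ⟨_, _, h3⟩
          simp only [Set.mem_ofPred_eq] at h3
          rw [hcard] at h3
          exact hj (by exact_mod_cast h3.symm)
      · rw [Set.indicator_of_notMem hG]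
        symm
        rw [ENNReal.tsum_eq_zero]
        intro k
        rw [Set.indicator_of_notMem, mul_zero]
        rintro ⟨h3, h4, _⟩
        exact hG ⟨h3, h4⟩
    rw [tsum_congr h2, ENNReal.tsum_comm]
    refine tsum_congr fun k => ?_
    rw [ENNReal.tsum_mul_left, ← encard_eq_tsum]
  · rintro G ⟨hG, _⟩ G' ⟨hG', _⟩ x ⟨hx, _⟩ ⟨hx', _⟩
    obtain ⟨i, hi⟩ := (hfam G hG).2.2 x hx
    exact (hpart i x hi).unique ⟨hG, hx⟩ ⟨hG', hx'⟩

theorem farA_aemeasurable {V : Finset (Fin q → ℕ)} {lam : Fin q → ℝ} (S : Scheme V lam d)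
    (A : Set (Finset (Sp d))) (hA : MeasurableSet[famSigma d] A) (B : Set (Sp d))
    (hB : MeasurableSet B) :
    AEMeasurable (fun ω => ((farA S A B ω).encard : ENNReal)) S.P := by
  refine ⟨fun ω => ∑' k : ℕ, (k : ENNReal) *
      ((S.M ω ∩ (A ∩ {F | ((F : Set (Sp d)) ∩ B).encard = k})).encard : ENNReal), ?_,
      farA_formula S A B⟩
  refine Measurable.tsum fun k => ?_
  refine Measurable.const_mul (toENNReal_measurable.comp (S.meas _ ?_)) _
  exact @MeasurableSet.inter _ (famSigma d) _ _ hA (meas_count B hB {(k : ℕ∞)})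

theorem nuA_formula {V : Finset (Fin q → ℕ)} {lam : Fin q → ℝ} (S : Scheme V lam d)
    (A : Set (Finset (Sp d))) (hA : MeasurableSet[famSigma d] A) (B : Set (Sp d))
    (hB : MeasurableSet B) :
    nuA S A B = ∑' k : ℕ, (k : ENNReal) *
      ∫⁻ ω, ((S.M ω ∩ (A ∩ {F | ((F : Set (Sp d)) ∩ B).encard = k})).encard : ENNReal) ∂S.P := by
  unfold nuA
  rw [lintegral_congr_ae (farA_formula S A B), lintegral_tsum]
  · refine tsum_congr fun k => ?_
    rw [lintegral_const_mul]
    exact toENNReal_measurable.comp (S.meas _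
      (@MeasurableSet.inter _ (famSigma d) _ _ hA (meas_count B hB {(k : ℕ∞)})))
  · intro k
    exact (Measurable.const_mul (toENNReal_measurable.comp (S.meas _
      (@MeasurableSet.inter _ (famSigma d) _ _ hA (meas_count B hB {(k : ℕ∞)})))) _).aemeasurable

/-- the measure `B ↦ nuA S A B` -/
def nuM {V : Finset (Fin q → ℕ)} {lam : Fin q → ℝ} (S : Scheme V lam d)
    (A : Set (Finset (Sp d))) (hA : MeasurableSet[famSigma d] A) : Measure (Sp d) :=
  Measure.ofMeasurable (fun B _ => nuA S A B)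
    (by
      have : ∀ ω, farA S A ∅ ω = ∅ := by
        intro ω; ext x; simp [farA]
      simp [nuA, this])
    (by
      intro f hf hdisj
      have h1 : ∀ ω, ((farA S A (⋃ i, f i) ω).encard : ENNReal) =
          ∑' i, ((farA S A (f i) ω).encard : ENNReal) := by
        intro ω
        have h2 : farA S A (⋃ i, f i) ω = ⋃ i, farA S A (f i) ω := by
          ext x
          simp only [farA, Set.mem_ofPred_eq, Set.mem_iUnion]
          tauto
        rw [h2, encard_iUnion]
        intro i j hij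
        refine Set.disjoint_left.mpr fun x hx hx' => ?_
        exact Set.disjoint_left.mp (hdisj hij) hx.1 hx'.1
      simp only [nuA, h1]
      rw [lintegral_tsum]
      intro i
      exact farA_aemeasurable S A hA (f i) (hf i))

theorem nuM_apply {V : Finset (Fin q → ℕ)} {lam : Fin q → ℝ} (S : Scheme V lam d)
    (A : Set (Finset (Sp d))) (hA : MeasurableSet[famSigma d] A) (B : Set (Sp d))
    (hB : MeasurableSet B) : nuM S A hA B = nuA S A B :=
  Measure.ofMeasurable_apply B hB


/-! ### invariance -/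

theorem fdiam_trF (t : Sp d) (F : Finset (Sp d)) : fdiam (trF t F) = fdiam F := by
  unfold fdiam trF
  rw [Finset.coe_map]
  exact (show Isometry (addRightEmbedding t : Sp d ↪ Sp d) from
    isometry_add_right t).diam_image _

theorem trF_count (t : Sp d) (F : Finset (Sp d)) (B : Set (Sp d)) :
    (((trF t F : Finset (Sp d)) : Set (Sp d)) ∩ B).encard =
      ((F : Set (Sp d)) ∩ ((fun x => x + t) ⁻¹' B)).encard := by
  have : (((trF t F : Finset (Sp d)) : Set (Sp d)) ∩ B) =
      (fun x => x + t) '' ((F : Set (Sp d)) ∩ ((fun x => x + t) ⁻¹' B)) := by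
    unfold trF
    rw [Finset.coe_map]
    ext y
    simp only [Set.mem_inter_iff, Set.mem_image, Set.mem_preimage, addRightEmbedding_apply]
    constructor
    · rintro ⟨⟨x, hx, rfl⟩, hB⟩
      exact ⟨x, ⟨hx, hB⟩, rfl⟩
    · rintro ⟨x, ⟨hx, hB⟩, rfl⟩
      exact ⟨⟨x, hx, rfl⟩, hB⟩
  rw [this]
  exact (add_left_injective t).encard_image _

theorem inter_inv {V : Finset (Fin q → ℕ)} {lam : Fin q → ℝ} (S : Scheme V lam d) (t : Sp d)
    (A : Set (Finset (Sp d))) (hA : MeasurableSet[famSigma d] A)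
    (hA' : Measurable fun ω => {F | F ∈ S.M ω ∧ trF t F ∈ A}.encard) :
    ∫⁻ ω, ({F | F ∈ S.M ω ∧ trF t F ∈ A}.encard : ENNReal) ∂S.P =
      ∫⁻ ω, ((S.M ω ∩ A).encard : ENNReal) ∂S.P := by
  have h := S.inv t 1 0 (fun _ => A) Fin.elim0 Fin.elim0 (fun _ => hA) (fun b => b.elim0)
  have hf : Measurable (fun p : (Fin 1 → ℕ∞) × (Fin 0 → ℕ∞) => (p.1 0 : ENNReal)) :=
    toENNReal_measurable.comp ((measurable_pi_apply 0).comp measurable_fst)
  have h1 : Measurable (fun ω => (((fun _ : Fin 1 => {F | F ∈ S.M ω ∧ trF t F ∈ A}.encard),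
        (fun b : Fin 0 => {x | x ∈ S.Pi (Fin.elim0 b) ω ∧ x + t ∈ (Fin.elim0 b : Set (Sp d))}.encard)) :
        (Fin 1 → ℕ∞) × (Fin 0 → ℕ∞))) := by
    refine Measurable.prodMk (measurable_pi_lambda _ fun _ => hA') (measurable_pi_lambda _ fun b => b.elim0)
  have h2 : Measurable (fun ω => (((fun _ : Fin 1 => (S.M ω ∩ A).encard),
        (fun b : Fin 0 => (S.Pi (Fin.elim0 b) ω ∩ (Fin.elim0 b : Set (Sp d))).encard)) :
        (Fin 1 → ℕ∞) × (Fin 0 → ℕ∞))) := by
    refine Measurable.prodMk (measurable_pi_lambda _ fun _ => S.meas A hA)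
      (measurable_pi_lambda _ fun b => b.elim0)
  have h3 := congrArg (fun μ => ∫⁻ p, (p.1 0 : ENNReal) ∂μ) h
  rw [lintegral_map hf h1, lintegral_map hf h2] at h3
  exact h3

theorem nuA_inv {V : Finset (Fin q → ℕ)} {lam : Fin q → ℝ} (S : Scheme V lam d)
    (A : Set (Finset (Sp d))) (hA : MeasurableSet[famSigma d] A)
    (hAi : ∀ (F : Finset (Sp d)) (t : Sp d), trF t F ∈ A ↔ F ∈ A) (t : Sp d) (B : Set (Sp d))
    (hB : MeasurableSet B) : nuA S A ((fun x => x + t) ⁻¹' B) = nuA S A B := by
  have hB' : MeasurableSet ((fun x : Sp d => x + t) ⁻¹' B) := (measurable_add_const t) hB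
  rw [nuA_formula S A hA B hB, nuA_formula S A hA _ hB']
  refine tsum_congr fun k => ?_
  congr 1
  have hset : ∀ ω, {F | F ∈ S.M ω ∧ trF t F ∈ A ∩ {F | ((F : Set (Sp d)) ∩ B).encard = k}} =
      S.M ω ∩ (A ∩ {F | ((F : Set (Sp d)) ∩ ((fun x => x + t) ⁻¹' B)).encard = k}) := by
    intro ω
    ext F
    simp only [Set.mem_ofPred_eq, Set.mem_inter_iff]
    rw [hAi F t, trF_count]
  have hm1 : MeasurableSet[famSigma d] (A ∩ {F : Finset (Sp d) | ((F : Set (Sp d)) ∩ B).encard = k}) :=
    @MeasurableSet.inter _ (famSigma d) _ _ hA (meas_count B hB {(k : ℕ∞)})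
  have hm2 : MeasurableSet[famSigma d]
      (A ∩ {F : Finset (Sp d) | ((F : Set (Sp d)) ∩ ((fun x => x + t) ⁻¹' B)).encard = k}) :=
    @MeasurableSet.inter _ (famSigma d) _ _ hA (meas_count _ hB' {(k : ℕ∞)})
  have := inter_inv S t _ hm1 (by simpa only [hset] using S.meas _ hm2)
  rw [← this]
  simp only [hset]

/-! ### the mean of a Poisson variable -/

theorem poisson_mean (r : NNReal) : ∫⁻ m, (m : ENNReal) ∂(poissonMeasure r) = r := by
  rw [poissonMeasure, lintegral_sum_measure]
  simp only [lintegral_smul_measure, lintegral_dirac, smul_eq_mul]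
  rw [tsum_eq_zero_add' ENNReal.summable]
  simp only [Nat.cast_zero, mul_zero, zero_add]
  have h1 : ∀ n : ℕ, ENNReal.ofReal (Real.exp (-r) * (r : ℝ) ^ (n + 1) / ((n + 1).factorial)) * ((n + 1 : ℕ) : ENNReal) =
      (r : ENNReal) * ENNReal.ofReal (Real.exp (-r) * (r : ℝ) ^ n / (n.factorial)) := by
    intro n
    rw [show ((n + 1 : ℕ) : ENNReal) = ENNReal.ofReal ((n + 1 : ℕ) : ℝ) by
      rw [ENNReal.ofReal_natCast], show (r : ENNReal) = ENNReal.ofReal (r : ℝ) by
        rw [ENNReal.ofReal_coe_nnreal], ← ENNReal.ofReal_mul (by positivity),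
        ← ENNReal.ofReal_mul (by positivity)]
    congr 1
    rw [Nat.factorial_succ]
    push_cast
    have : ((n.factorial : ℕ) : ℝ) ≠ 0 := by positivity
    have h2 : ((n : ℝ) + 1) ≠ 0 := by positivity
    field_simp
    try ring
  simp only [h1]
  rw [ENNReal.tsum_mul_left, ← ENNReal.ofReal_tsum_of_nonneg (fun n => by positivity)
    (hasSum_one_poissonMeasure r).summable, (hasSum_one_poissonMeasure r).tsum_eq]
  simp

/-! ### the unit cube -/

/-- the unit cube -/
def Qc (d : ℕ) : Set (Sp d) := {x : Sp d | ∀ i, 0 ≤ x i ∧ x i < 1}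

theorem Qc_eq : Qc d = (MeasurableEquiv.toLp 2 (Fin d → ℝ)).symm ⁻¹'
    (Set.pi Set.univ fun _ => Set.Ico (0 : ℝ) 1) := by
  ext x
  simp [Qc, Set.mem_pi]

theorem Qc_meas : MeasurableSet (Qc d) := by
  rw [Qc_eq]
  exact (MeasurableEquiv.measurable _) (MeasurableSet.univ_pi fun _ => measurableSet_Ico)

theorem Qc_vol : volume (Qc d) = 1 := by
  rw [Qc_eq, MeasurePreserving.measure_preimage (EuclideanSpace.volume_preserving_symm_measurableEquiv_toLp (Fin d))
    (MeasurableSet.univ_pi fun _ => measurableSet_Ico).nullMeasurableSet, Real.volume_pi_Ico]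
  simp

theorem Qc_bdd : Bornology.IsBounded (Qc d) := by
  rw [isBounded_iff_forall_norm_le]
  refine ⟨Real.sqrt d, fun x hx => ?_⟩
  rw [EuclideanSpace.norm_eq]
  apply Real.sqrt_le_sqrt
  calc ∑ i, ‖x i‖ ^ 2 ≤ ∑ _i : Fin d, (1 : ℝ) := by
        refine Finset.sum_le_sum fun i _ => ?_
        rw [Real.norm_eq_abs, sq_abs]
        have := hx i
        nlinarith [this.1, this.2]
    _ = d := by simp

theorem mean_color {V : Finset (Fin q → ℕ)} {lam : Fin q → ℝ} (S : Scheme V lam d) (i : Fin q) :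
    ∫⁻ ω, ((S.Pi i ω ∩ Qc d).encard : ENNReal) ∂S.P = ENNReal.ofReal (lam i) := by
  have h := (S.poisson.2 1 (fun _ => i) (fun _ => Qc d) (fun _ => Qc_meas) (fun _ => Qc_bdd)
    (fun j j' hj => absurd (Subsingleton.elim j j') hj)).2 0
  have hm := S.poisson.1 i (Qc d) Qc_meas
  have h3 := congrArg (fun μ => ∫⁻ n : ℕ∞, (n : ENNReal) ∂μ) h
  rw [lintegral_map toENNReal_measurable hm, lintegral_map toENNReal_measurable Measurable.of_discrete] at h3
  rw [h3]
  simp only [ENat.toENNReal_coe]
  rw [poisson_mean, Qc_vol]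
  simp [ENNReal.ofReal]

theorem mean_all {V : Finset (Fin q → ℕ)} {lam : Fin q → ℝ} (hlam : ∀ i, 0 ≤ lam i)
    (S : Scheme V lam d) (A : Set (Finset (Sp d))) :
    nuA S A (Qc d) ≤ ENNReal.ofReal (∑ i, lam i) := by
  rw [ENNReal.ofReal_sum_of_nonneg (fun i _ => hlam i)]
  calc nuA S A (Qc d) ≤ ∫⁻ ω, ∑ i, ((S.Pi i ω ∩ Qc d).encard : ENNReal) ∂S.P := by
        refine lintegral_mono fun ω => ?_
        have h1 : farA S A (Qc d) ω ⊆ ⋃ i ∈ (Finset.univ : Finset (Fin q)), (S.Pi i ω ∩ Qc d) := by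
          rintro x ⟨hQ, ⟨i, hi⟩, _⟩
          simp only [Finset.mem_univ, Set.iUnion_true, Set.mem_iUnion]
          exact ⟨i, hi, hQ⟩
        have h2 : (farA S A (Qc d) ω).encard ≤ ∑ i, (S.Pi i ω ∩ Qc d).encard := by
          refine (Set.encard_le_encard h1).trans ?_
          generalize (Finset.univ : Finset (Fin q)) = s
          induction s using Finset.induction_on with
          | empty => simp
          | insert a s ha ih =>
            rw [Finset.sum_insert ha, Finset.set_biUnion_insert]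
            exact (Set.encard_union_le _ _).trans (add_le_add le_rfl ih)
        have h3 : ((farA S A (Qc d) ω).encard : ENNReal) ≤
            ((∑ i, (S.Pi i ω ∩ Qc d).encard : ℕ∞) : ENNReal) := by exact_mod_cast h2
        refine h3.trans (le_of_eq ?_)
        exact map_sum ENat.toENNRealRingHom _ _
    _ = ∑ i, ENNReal.ofReal (lam i) := by
        rw [lintegral_finsetSum]
        · exact Finset.sum_congr rfl fun i _ => mean_color S i
        · intro i _
          exact toENNReal_measurable.comp (S.poisson.1 i _ Qc_meas)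

/-! ### Haar uniqueness -/

theorem haar (ν : Measure (Sp d))
    (hinv : ∀ (t : Sp d) (B : Set (Sp d)), MeasurableSet B → ν ((fun x => x + t) ⁻¹' B) = ν B)
    (hfin : ν (Qc d) < ⊤) (B : Set (Sp d)) :
    ν B = volume B * ν (Qc d) := by
  have : ν.IsAddLeftInvariant := by
    constructor
    intro g
    ext s hs
    rw [Measure.map_apply (measurable_const_add g) hs, ← hinv g s hs]
    congr 1
    ext x
    simp [add_comm]
  have : IsFiniteMeasureOnCompacts ν := by
    constructor
    intro K hK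
    -- cover by integer translates
    have hbd := hK.isBounded
    obtain ⟨R, hR⟩ := (isBounded_iff_forall_norm_le.mp hbd)
    obtain ⟨N, hN⟩ := exists_nat_ge R
    set I : Finset (Fin d → ℤ) := Fintype.piFinset fun _ => Finset.Icc (-(N : ℤ) - 1) (N : ℤ) with hI
    have hcov : K ⊆ ⋃ c ∈ I, ((fun x : Sp d => x + (WithLp.toLp 2 (fun i => -(c i : ℝ)) : Sp d)) ⁻¹' (Qc d)) := by
      intro x hx
      simp only [Set.mem_iUnion]
      refine ⟨fun i => ⌊x i⌋, ?_, ?_⟩
      · rw [hI, Fintype.mem_piFinset]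
        intro i
        have h1 : |x i| ≤ N := by
          have := EuclideanSpace.norm_eq x
          have h2 : |x i| ≤ ‖x‖ := by
            rw [← Real.norm_eq_abs]
            exact PiLp.norm_apply_le x i
          exact h2.trans ((hR x hx).trans hN)
        rw [abs_le] at h1
        rw [Finset.mem_Icc]
        constructor
        · have : ((-(N : ℤ) - 1 : ℤ) : ℝ) ≤ x i := by push_cast; linarith [h1.1]
          exact Int.le_floor.mpr this
        · have : ((⌊x i⌋ : ℤ) : ℝ) ≤ ((N : ℤ) : ℝ) := (Int.floor_le _).trans (by push_cast; exact h1.2)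
          exact_mod_cast this
      · simp only [Set.mem_preimage, Qc, Set.mem_ofPred_eq, PiLp.add_apply]
        intro i
        constructor
        · have := Int.floor_le (x i); linarith
        · have := Int.lt_floor_add_one (x i); linarith
    refine lt_of_le_of_lt (measure_mono hcov) ?_
    refine lt_of_le_of_lt (measure_biUnion_finset_le _ _) ?_
    refine ENNReal.sum_lt_top.mpr fun c _ => ?_
    rw [hinv _ _ Qc_meas]
    exact hfin
  have h := Measure.isAddLeftInvariant_eq_smul ν (volume : Measure (Sp d))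
  have hQ : ν (Qc d) = (ν.addHaarScalarFactor volume : ENNReal) := by
    conv_lhs => rw [h]
    rw [Measure.smul_apply, Qc_vol]
    simp [ENNReal.smul_def]
  conv_lhs => rw [h]
  rw [Measure.smul_apply, hQ, mul_comm]
  simp [ENNReal.smul_def]

theorem nuA_eq {V : Finset (Fin q → ℕ)} {lam : Fin q → ℝ} (hlam : ∀ i, 0 ≤ lam i)
    (S : Scheme V lam d) (A : Set (Finset (Sp d))) (hA : MeasurableSet[famSigma d] A)
    (hAi : ∀ (F : Finset (Sp d)) (t : Sp d), trF t F ∈ A ↔ F ∈ A) (B : Set (Sp d))
    (hB : MeasurableSet B) : nuA S A B = volume B * nuA S A (Qc d) := by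
  rw [← nuM_apply S A hA B hB, ← nuM_apply S A hA _ Qc_meas]
  refine haar _ ?_ ?_ B
  · intro t C hC
    rw [nuM_apply S A hA C hC, nuM_apply S A hA _ ((measurable_add_const t) hC)]
    exact nuA_inv S A hA hAi t C hC
  · rw [nuM_apply S A hA _ Qc_meas]
    exact lt_of_le_of_lt (mean_all hlam S A) ENNReal.ofReal_lt_top

/-- the module NU -/
theorem nu : T_NU := by
  intro d q D S r B _ hB
  have hlam : ∀ i, 0 ≤ D.lam i := fun i => (D.pos i).le
  refine ⟨farA_aemeasurable S {G | r < fdiam G} (meas_diam r) B hB, ?_, ?_⟩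
  · exact nuA_eq hlam S {G | r < fdiam G} (meas_diam r)
      (fun F t => by simp only [Set.mem_ofPred_eq, fdiam_trF]) B hB
  · exact mean_all hlam S {G | r < fdiam G}

end

end Pool.Agent.H85.MC.NU
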