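import Pool.Agent.H96.MC.Targets2

/-!
# MP_5da387_pr, board `mc_modules`: module PHI
-/

set_option autoImplicit false

namespace Pool.Agent.H85.MC

open Classical MeasureTheory ProbabilityTheory Pool.Agent.H96.MC

/-- the counts of a configuration on a finite set -/
def rsW {d q : ℕ} (W : Finset (CC d q)) (n : Cfg d q) : W → ℕ := fun x => n x.1

lemma ext_rsW {d q : ℕ} (W : Finset (CC d q)) (n : Cfg d q) (x : CC d q) :
    ext (rsW W n) x = if x ∈ W then n x else 0 := by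
  unfold ext rsW
  by_cases h : x ∈ W
  · simp [h]
  · simp [h]

theorem phi (h1 : T_ZON) (h2 : T_WIN) (h3 : T_LBL) (h4 : T_LOC) (_h5 : T_FMEAS) : T_PHI := by
  intro d q D η c₁ E P hd hAL hE hP J
  obtain ⟨Aw, hAw⟩ : ∃ Aw, Aw = P.A (J + 1) := ⟨_, rfl⟩
  rw [← hAw]
  have hmono : Monotone P.A := monotone_nat_of_le_succ fun j => by
    have := hP.Amono j
    omega
  have hA3 : ∀ k, k ≤ J → 3 * P.A k ≤ Aw := by
    intro k hk
    have e1 := hmono hk
    have e2 := hP.Amono J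
    omega
  have key : ∀ n₀ : Cfg d q, (∀ z, sn z ≤ Aw → ¬ FF D P η n₀ J z) →
      ∃ F : Pt d q → Finset (Pt d q), IsMat D.V (n₀, F) ∧
        (∀ x : Pt d q, 4 * sn x.1.1 ≤ Aw → x.2 < n₀ x.1 → (F x).Nonempty) ∧
        ∀ x : Pt d q, (F x).Nonempty → sn x.1.1 ≤ Aw ∧ ∀ r, Allow D P η n₀ J x.1.1 r →
          ∀ y ∈ F x, ∀ y' ∈ F x, nrm (y.1.1 - y'.1.1) ≤ r := by
    intro n₀ hn₀
    obtain ⟨reg, lev, hz⟩ := h1 d q D η c₁ E P hP n₀ J
    obtain ⟨μ, hμ1, hμ2, hμ3⟩ := h2 d q D η c₁ E P hd hAL hE hP n₀ J reg lev hz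
      (fun z hz' => hn₀ z (by rw [hAw]; exact hz'))
    obtain ⟨F, hF1, hF2, hF3⟩ := h3 d q D.V n₀ μ hμ1 (fun u hu => ⟨(hμ3 u hu).1, (hμ3 u hu).2.1⟩)
    refine ⟨F, hF1, ?_, ?_⟩
    · intro x hx hx2
      rw [hF2, hμ2 x.1 (by rw [← hAw]; exact hx)]
      exact hx2
    · intro x hx
      obtain ⟨u, hu, hxu, hyu⟩ := hF3 x hx
      obtain ⟨-, -, hu3, hu4⟩ := hμ3 u hu
      refine ⟨by rw [hAw]; exact hu3 _ hxu, fun r hr y hy y' hy' => ?_⟩
      exact (hu4 _ hxu r hr).2.2 _ (hyu y hy) _ (hyu y' hy')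
  let W : Finset (CC d q) := win d q (5 * Aw)
  let good : (W → ℕ) → Prop := fun w => ∀ z, sn z ≤ Aw → ¬ FF D P η (ext w) J z
  let G : (W → ℕ) → Pt d q → Finset (Pt d q) := fun w =>
    if h : good w then (key (ext w) h).choose else fun _ => ∅
  have hG : ∀ w (h : good w), G w = (key (ext w) h).choose := fun w h => dif_pos h
  have hG' : ∀ w, ¬ good w → G w = fun _ => ∅ := fun w h => dif_neg h
  have hW : ∀ x : CC d q, x ∈ W ↔ sn x.1 ≤ 5 * Aw := by
    intro x
    change x ∈ cube 0 (5 * Aw) ×ˢ (Finset.univ : Finset (Fin q)) ↔ _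
    rw [Finset.mem_product, mem_cube, sub_zero]
    simp
  have hloc : ∀ (n : Cfg d q) (k : ℕ) (z : Cell d), k ≤ J → sn z ≤ 2 * Aw →
      (FF D P η n k z ↔ FF D P η (ext (rsW W n)) k z) := by
    intro n k z hk hz
    refine h4 d q D η c₁ E P hP k z n _ fun x hx => ?_
    rw [ext_rsW, if_pos]
    rw [hW]
    have e1 := hA3 k hk
    have e2 := sn_add_le (x.1 - z) z
    rw [sub_add_cancel] at e2
    omega
  have hle : ∀ (n : Cfg d q) x, ext (rsW W n) x ≤ n x := by
    intro n x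
    rw [ext_rsW]
    split_ifs
    · exact le_rfl
    · exact Nat.zero_le _
  refine ⟨fun n => G (rsW W n), ?_, ?_, ?_, ?_⟩
  · have hm1 : Measurable G := measurable_of_countable G
    have hm2 : Measurable (rsW W : Cfg d q → W → ℕ) :=
      measurable_pi_lambda _ fun x => measurable_pi_apply _
    exact hm1.comp hm2
  · intro n
    by_cases hg : good (rsW W n)
    · have hs := (key (ext (rsW W n)) hg).choose_spec.1
      rw [← hG _ hg] at hs
      intro x hx
      obtain ⟨e1, e2, e3⟩ := hs x hx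
      exact ⟨e1, e2, fun y hy => ⟨(e3 y hy).1, (e3 y hy).2.trans_le (hle n _)⟩⟩
    · intro x hx
      simp only [hG' _ hg] at hx
      exact absurd hx Finset.not_nonempty_empty
  · intro n hn x hx hx2
    have hg : good (rsW W n) := by
      intro z hz hF
      exact hn z hz ((hloc n J z le_rfl (by omega)).2 hF)
    have hs := (key (ext (rsW W n)) hg).choose_spec.2.1
    rw [← hG _ hg] at hs
    have e1 : ext (rsW W n) x.1 = n x.1 := by
      rw [ext_rsW, if_pos]
      rw [hW]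
      omega
    have := hs x hx (by rw [e1]; exact hx2)
    exact this.ne_empty
  · intro n x r hr hfar
    obtain ⟨y, hy, y', hy', hlt⟩ := hfar
    change y ∈ G (rsW W n) x at hy
    change y' ∈ G (rsW W n) x at hy'
    by_cases hg : good (rsW W n)
    · have hs := (key (ext (rsW W n)) hg).choose_spec.2.2
      rw [← hG _ hg] at hs
      obtain ⟨e1, e2⟩ := hs x ⟨y, hy⟩
      have hall : Allow D P η (ext (rsW W n)) J x.1.1 r := by
        refine ⟨hr.1, fun j hj1 hj2 hex => hr.2 j hj1 hj2 ?_⟩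
        obtain ⟨z, hz1, hz2⟩ := hex
        refine ⟨z, hz1, (hloc n (j - 1) z (by omega) ?_).2 hz2⟩
        have e3 := hA3 j hj2
        have e4 := sn_add_le (z - x.1.1) x.1.1
        rw [sub_add_cancel] at e4
        omega
      exact absurd hlt (not_lt.2 (e2 r hall y hy y' hy'))
    · rw [hG' _ hg] at hy
      exact absurd hy (Finset.notMem_empty _)

end Pool.Agent.H85.MC
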