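import Pool.Agent.H96.MC.Targets2

/-!
# MP_5da387_pr, board `mc_modules`: union bounds for modules GP1 and GP3
-/

set_option autoImplicit false

namespace Pool.Agent.H85.MC

open Classical MeasureTheory ProbabilityTheory Pool.Agent.H96.MC

lemma card_cube {d : ℕ} (c : Cell d) (T : ℕ) : (cube c T).card = (2 * T + 1) ^ d := by
  unfold cube
  rw [Fintype.card_piFinset]
  have : ∀ i : Fin d, (Finset.Icc (c i - (T : ℤ)) (c i + T)).card = 2 * T + 1 := by
    intro i
    rw [Int.card_Icc]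
    omega
  simp [this]

lemma union_bound {d q : ℕ} (h1 : T_INDEP) (D : Dat q) (S : Cell d → Set (Cfg d q))
    (W : Cell d → Finset (CC d q)) (A m : ℕ) (p : ℝ) (z : Cell d) (hp : 0 ≤ p)
    (hdet : ∀ x, DetBy (W x) (S x)) (hS : ∀ x, pois D d (S x) ≤ ENNReal.ofReal p)
    (Q : Finset (Finset (Cell d))) (hQ : ∀ F ∈ Q, F ⊆ cube z (2 * A) ∧ F.card = m + 1)
    (hQd : ∀ F ∈ Q, ∀ a ∈ F, ∀ b ∈ F, a ≠ b → Disjoint (W a) (W b)) :
    pois D d (⋃ F ∈ Q, ⋂ x ∈ F, S x) ≤ ENNReal.ofReal (((4 * (A : ℝ) + 1) ^ d * p) ^ (m + 1)) := by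
  have h2 : ∀ F ∈ Q, pois D d (⋂ x ∈ F, S x) ≤ ENNReal.ofReal p ^ (m + 1) := by
    intro F hF
    rw [h1 d q D (Cell d) F W S (fun a _ => hdet a) (hQd F hF)]
    calc ∏ a ∈ F, pois D d (S a) ≤ ∏ _a ∈ F, ENNReal.ofReal p :=
          Finset.prod_le_prod' fun a _ => hS a
      _ = ENNReal.ofReal p ^ (m + 1) := by rw [Finset.prod_const, (hQ F hF).2]
  have hcard : Q.card ≤ ((4 * A + 1) ^ d) ^ (m + 1) := by
    have h3 : Q ⊆ (cube z (2 * A)).powersetCard (m + 1) := fun F hF =>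
      Finset.mem_powersetCard.2 (hQ F hF)
    calc Q.card ≤ ((cube z (2 * A)).powersetCard (m + 1)).card := Finset.card_le_card h3
      _ = (cube z (2 * A)).card.choose (m + 1) := Finset.card_powersetCard _ _
      _ ≤ (cube z (2 * A)).card ^ (m + 1) := Nat.choose_le_pow _ _
      _ = ((4 * A + 1) ^ d) ^ (m + 1) := by rw [card_cube]; ring_nf
  calc pois D d (⋃ F ∈ Q, ⋂ x ∈ F, S x) ≤ ∑ F ∈ Q, pois D d (⋂ x ∈ F, S x) :=
        measure_biUnion_finset_le _ _
    _ ≤ ∑ _F ∈ Q, ENNReal.ofReal p ^ (m + 1) := Finset.sum_le_sum h2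
    _ = (Q.card : ENNReal) * ENNReal.ofReal p ^ (m + 1) := by
        rw [Finset.sum_const, nsmul_eq_mul]
    _ ≤ ((((4 * A + 1) ^ d) ^ (m + 1) : ℕ) : ENNReal) * ENNReal.ofReal p ^ (m + 1) := by
        gcongr
    _ = ENNReal.ofReal (((4 * (A : ℝ) + 1) ^ d * p) ^ (m + 1)) := by
        rw [mul_pow, ENNReal.ofReal_mul (by positivity), ENNReal.ofReal_pow hp]
        congr 1
        rw [← ENNReal.ofReal_natCast]
        congr 1
        push_cast
        ring

theorem gp3 (h1 : T_INDEP) : T_GP3 := by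
  intro d q D S A A' m p z hA hp hdet hS
  set Q : Finset (Finset (Cell d)) := ((cube z (2 * A')).powersetCard (m + 1)).filter
    (fun F => ∀ x ∈ F, ∀ y ∈ F, x ≠ y → 10 * A ≤ sn (x - y)) with hQ
  refine le_trans (measure_mono ?_) (union_bound h1 D S (fun x => cube x (3 * A) ×ˢ Finset.univ)
    A' m p z hp hdet hS Q (fun F hF => Finset.mem_powersetCard.1 (Finset.mem_filter.1 hF).1) ?_)
  · intro n hn
    simp only [Set.mem_setOf_eq] at hn
    push Not at hn
    obtain ⟨F, hF1, hF2, hF3⟩ := hn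
    obtain ⟨F', hF', hc⟩ := Finset.exists_subset_card_eq (show m + 1 ≤ F.card from hF3)
    refine Set.mem_biUnion (x := F') ?_ ?_
    · rw [hQ]
      refine Finset.mem_filter.2 ⟨Finset.mem_powersetCard.2 ⟨fun x hx => ?_, hc⟩, ?_⟩
      · exact mem_cube.2 (hF1 x (hF' hx)).1
      · exact fun x hx y hy => hF2 x (hF' hx) y (hF' hy)
    · exact Set.mem_iInter₂.2 fun x hx => (hF1 x (hF' hx)).2
  · intro F hF a ha b hb hab
    have h2 := (Finset.mem_filter.1 hF).2 a ha b hb hab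
    rw [Finset.disjoint_left]
    intro x hx hx'
    have h3 := mem_cube.1 (Finset.mem_product.1 hx).1
    have h4 := mem_cube.1 (Finset.mem_product.1 hx').1
    have h5 := sn_sub_le a x.1 b
    rw [sn_sub_comm a x.1] at h5
    omega

lemma shellOf_subset {d : ℕ} (l w : ℕ) (b : Cell d) : shellOf l w b ⊆ cellsOf l b :=
  Finset.filter_subset _ _

lemma typ_det {d q : ℕ} (D : Dat q) (η : ℝ) (w l : ℕ) (b : Cell d) :
    DetBy (cellsOf l b ×ˢ Finset.univ) {n : Cfg d q | ¬ Typ D η w l n b} := by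
  intro n n' h
  have h1 : ∀ i, bc l n (b, i) = bc l n' (b, i) := fun i =>
    Finset.sum_congr rfl fun z hz => h (z, i) (Finset.mem_product.2 ⟨hz, Finset.mem_univ _⟩)
  have h2 : ∀ i, ∑ z ∈ shellOf l w b, n (z, i) = ∑ z ∈ shellOf l w b, n' (z, i) := fun i =>
    Finset.sum_congr rfl fun z hz =>
      h (z, i) (Finset.mem_product.2 ⟨shellOf_subset l w b hz, Finset.mem_univ _⟩)
  simp only [Set.mem_setOf_eq, Typ, h1, h2]

theorem gp1 (h1 : T_INDEP) (_h2 : T_FMEAS) : T_GP1 := by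
  intro d q D η w l A n0 p z hl hp hS
  refine le_trans (measure_mono ?_) (union_bound h1 D (fun b => {n : Cfg d q | ¬ Typ D η w l n b})
    (fun b => cellsOf l b ×ˢ Finset.univ) A n0 p (bl l z) hp (fun b => typ_det D η w l b) hS
    ((cube (bl l z) (2 * A)).powersetCard (n0 + 1)) (fun F hF => Finset.mem_powersetCard.1 hF) ?_)
  · intro n hn
    simp only [Set.mem_setOf_eq, not_le] at hn
    have hfin : {b : Cell d | sn (b - bl l z) * l ≤ 2 * A ∧ ¬ Typ D η w l n b}.Finite := by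
      refine (cube (bl l z) (2 * A)).finite_toSet.subset ?_
      rintro b ⟨hb, -⟩
      refine Finset.mem_coe.2 (mem_cube.2 ?_)
      calc sn (b - bl l z) = sn (b - bl l z) * 1 := (mul_one _).symm
        _ ≤ sn (b - bl l z) * l := Nat.mul_le_mul_left _ hl
        _ ≤ 2 * A := hb
    rw [Set.ncard_eq_toFinset_card _ hfin] at hn
    obtain ⟨F', hF', hc⟩ := Finset.exists_subset_card_eq (show n0 + 1 ≤ _ from hn)
    refine Set.mem_biUnion (x := F') ?_ ?_
    · refine Finset.mem_powersetCard.2 ⟨fun b hb => ?_, hc⟩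
      have hb' := (hfin.mem_toFinset.1 (hF' hb)).1
      refine mem_cube.2 ?_
      calc sn (b - bl l z) = sn (b - bl l z) * 1 := (mul_one _).symm
        _ ≤ sn (b - bl l z) * l := Nat.mul_le_mul_left _ hl
        _ ≤ 2 * A := hb'
    · exact Set.mem_iInter₂.2 fun b hb => (hfin.mem_toFinset.1 (hF' hb)).2
  · intro F _ a _ b _ hab
    rw [Finset.disjoint_left]
    intro x hx hx'
    have h3 := (mem_cellsOf hl).1 (Finset.mem_product.1 hx).1
    have h4 := (mem_cellsOf hl).1 (Finset.mem_product.1 hx').1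
    exact hab (h3.symm.trans h4)

end Pool.Agent.H85.MC
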